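import Pool.Agent.Helper54.S4.Stmts
import Pool.Agent.Helper54.SP.StmtsP

namespace Pool.Agent.Helper54.S4

open Finset Pool.Agent.Helper54.SP

lemma dq4_dt3 (X : ℕ → ℕ → ℝ) (p q r : ℕ) : dt 3 X [p, q, r] =
    X p 0 * X q 1 * X r 2 - X p 0 * X q 2 * X r 1 - X p 1 * X q 0 * X r 2
      + X p 1 * X q 2 * X r 0 + X p 2 * X q 0 * X r 1 - X p 2 * X q 1 * X r 0 := by
  unfold dt
  rw [Matrix.det_fin_three]
  simp

lemma dq4_dt4 (X : ℕ → ℕ → ℝ) (p q r s : ℕ) : dt 4 X [p, q, r, s] =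
    -X p 3 * dt 3 X [q, r, s] + X q 3 * dt 3 X [p, r, s] - X r 3 * dt 3 X [p, q, s]
      + X s 3 * dt 3 X [p, q, r] := by
  rw [dq4_dt3, dq4_dt3, dq4_dt3, dq4_dt3]
  unfold dt
  rw [Matrix.det_succ_row_zero]
  simp only [Fin.sum_univ_four, Matrix.det_fin_three]
  simp [Fin.succAbove, Fin.lt_def, Matrix.submatrix]
  ring

theorem st_DQ4 (_h1 : SP.ST_LE1) (_h2 : SP.ST_LE2) : ST_DQ4 := by
  intro n x y z
  refine ⟨?_, ?_, ?_⟩
  · intro p q r hp hq hr
    rw [dq4_dt3]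
    have hx : ∀ p : ℕ, p ≠ 1 → pl x y p 0 = hX x p ∧ pl x y p 1 = hY y p ∧ pl x y p 2 = hE p := by
      intro p hp
      by_cases h0 : p = 0
      · subst h0
        simp [pl, hX, hY, hE]
      · simp [pl, hX, hY, hE, h0, hp]
    obtain ⟨a1, a2, a3⟩ := hx p hp
    obtain ⟨b1, b2, b3⟩ := hx q hq
    obtain ⟨c1, c2, c3⟩ := hx r hr
    rw [a1, a2, a3, b1, b2, b3, c1, c2, c3]
    unfold DD
    ring
  · intro p q r s hp hq hr hs
    have hX : ∀ p, p < n → ∀ j, j < 3 → qv n x y z p j = pl x y p j := by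
      intro p hp j hj
      simp [qv, hp, hj]
    have hZ : ∀ p, p < n → qv n x y z p 3 = z p := by
      intro p hp
      simp [qv, hp]
    have h3 : ∀ a b c, a < n → b < n → c < n →
        dt 3 (qv n x y z) [a, b, c] = dt 3 (pl x y) [a, b, c] := by
      intro a b c ha hb hc
      rw [dq4_dt3, dq4_dt3]
      rw [hX a ha 0 (by omega), hX a ha 1 (by omega), hX a ha 2 (by omega),
        hX b hb 0 (by omega), hX b hb 1 (by omega), hX b hb 2 (by omega),
        hX c hc 0 (by omega), hX c hc 1 (by omega), hX c hc 2 (by omega)]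
    rw [dq4_dt4, hZ p hp, hZ q hq, hZ r hr, hZ s hs, h3 q r s hq hr hs, h3 p r s hp hr hs,
      h3 p q s hp hq hs, h3 p q r hp hq hr]
  · intro p q r hp hq hr
    have hX : ∀ p, p < n → ∀ j, j < 3 → qv n x y z p j = pl x y p j := by
      intro p hp j hj
      simp [qv, hp, hj]
    have h3 : dt 3 (qv n x y z) [p, q, r] = dt 3 (pl x y) [p, q, r] := by
      rw [dq4_dt3, dq4_dt3]
      rw [hX p hp 0 (by omega), hX p hp 1 (by omega), hX p hp 2 (by omega),
        hX q hq 0 (by omega), hX q hq 1 (by omega), hX q hq 2 (by omega),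
        hX r hr 0 (by omega), hX r hr 1 (by omega), hX r hr 2 (by omega)]
    have hN0 : ∀ j, j < 3 → qv n x y z n j = 0 := by
      intro j hj
      have : j ≠ 3 := by omega
      simp [qv, this]
    have hN3 : qv n x y z n 3 = 1 := by simp [qv]
    have hz : ∀ a b, dt 3 (qv n x y z) [a, b, n] = 0 := by
      intro a b
      rw [dq4_dt3, hN0 0 (by omega), hN0 1 (by omega), hN0 2 (by omega)]
      ring
    rw [dq4_dt4, hz, hz, hz, hN3, h3]
    ring

end Pool.Agent.Helper54.S4
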